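import Pool.Agent.UHJ.Main

/-!
# MP_ee0971_nt : uniform height bounds for curves that miss the filled Julia set at a place

`f` is any polynomial of prime power degree over a number field `K` and `C` is a non-vertical curve
in affine `n`-space over `K`. Suppose that for any two coordinates `x_i`, `x_j` there are a finite
place `v` of `K`, a radius `r` of `f` at `v` and a time `t` such that `f^t(x_i)` and `f^t(x_j)` are
never both in the disc of radius `|f_q r ^ q|` at a place above `v`, for the points of `C` over
number fields. Then there is one height bound for all the points of `C` on the hypersurfaces of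
level `k` not containing `C`, for all `k`.

`UHG.IsNonverticalCurve`, `UHG.points`, `UHG.hyp` are defined in `Pool/Agent/UHG/Main.lean`, and
`UHJ.Above`, `UHJ.IsRadius`, `UHJ.Misses` in `Pool/Agent/UHJ/Main.lean`.
-/

set_option autoImplicit false

universe u

open NumberField IsDedekindDomain Polynomial

namespace Pool.Agent.Results.MP_ee0971_nt.EscapingCurves

open Pool.Agent.UHG Pool.Agent.UHJ

/-- **Uniform height bound.** -/
theorem result {K : Type u} [Field K] [NumberField K] (f : K[X]) (p s : ℕ) (hp : p.Prime)
    (hs : 0 < s) (hdeg : f.natDegree = p ^ s) (m : ℕ) (hm : 0 < m) (n : ℕ)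
    (I : Ideal (MvPolynomial (Fin n) K)) (hI : IsNonverticalCurve I)
    (h : ∀ i j : Fin n, i ≠ j → ∃ v : HeightOneSpectrum (𝓞 K), Misses f I v i j) :
    ∃ B : ℝ, ∀ k : ℕ, ∀ V ∈ hyp f m n k, ¬ points I ⊆ V → ∀ P ∈ points I ∩ V,
      ∑ i, absLogHeight₁ (P i) ≤ B :=
  main_misses f hp hs hdeg m hm n I hI h

end Pool.Agent.Results.MP_ee0971_nt.EscapingCurves
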