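import Pool.Agent.UHG.Main
import Pool.Agent.UHG.Pot

/-!
# MP_ee0971_nt : uniform height bounds on curves, potentially purely inseparable good reduction

`f ∈ K[X]` of degree `q = p ^ s`, `p` prime, conjugate over a finite extension `K'` of the number
field `K` to a polynomial `g` with `g ≡ u X ^ q + c` (`u` a unit) modulo a finite place of `K'`
above `p`, and no critical point of `f` is periodic. For every non-vertical curve `C` in affine
`n`-space over a number field containing `K` there is one height bound for all the points of `C`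
on the hypersurfaces of level `k` not containing `C`, for all `k`.

`UHG.IsNonverticalCurve`, `UHG.points`, `UHG.hyp` are defined in `Pool/Agent/UHG/Main.lean`.
-/

set_option autoImplicit false

universe u v w

open NumberField IsDedekindDomain Polynomial

namespace Pool.Agent.Results.MP_ee0971_nt.PurelyInseparable

open Pool.Agent.UHG

/-- The degree bound over a number field containing `K`. -/
theorem DB_map {K : Type u} [Field K] [NumberField K] {L : Type v} [Field L] [NumberField L]
    [Algebra K L] {f : K[X]} (h : DB.{w, u} f) : DB.{w, v} (f.map (algebraMap K L)) := by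
  obtain ⟨C0, hC0, hC⟩ := h
  have hfd : FiniteDimensional K L := Module.Finite.of_restrictScalars_finite ℚ K L
  refine ⟨C0 * Module.finrank K L, Nat.mul_pos hC0 Module.finrank_pos, ?_⟩
  intro E _ _ _ x y N h1 h2
  let _ : Algebra K E := ((algebraMap L E).comp (algebraMap K L)).toAlgebra
  have _ : IsScalarTower K L E := IsScalarTower.of_algebraMap_eq fun _ => rfl
  have _ : FiniteDimensional K E := FiniteDimensional.trans K L E
  have e : (st (f.map (algebraMap K L)) : E → E) = st f :=
    funext fun z => aeval_map_algebraMap L z f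
  rw [e] at h1 h2
  have h3 := hC E x y N h1 h2
  rw [natDegree_map]
  calc f.natDegree ^ N ≤ C0 * Module.finrank K E := h3
    _ = C0 * Module.finrank K L * Module.finrank L E := by
        rw [mul_assoc, Module.finrank_mul_finrank]

/-- **Uniform height bound.** -/
theorem result {K : Type u} [Field K] [NumberField K] (p s : ℕ) (hp : p.Prime) (hs : 0 < s)
    (f : K[X]) (hdeg : f.natDegree = p ^ s)
    (hcrit : ∀ r : ℕ, 0 < r → IsCoprime (derivative f) (f.comp^[r] X - X))
    {K' : Type v} [Field K'] [NumberField K'] [Algebra K K'] (g : K'[X]) (a b : K') (ha : a ≠ 0)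
    (hg : C a * g + C b = (f.map (algebraMap K K')).comp (C a * X + C b))
    (v : HeightOneSpectrum (𝓞 K')) (hv : v.valuation K' (p : K') < 1)
    (hlead : v.valuation K' (g.coeff (p ^ s)) = 1)
    (hmid : ∀ i, 0 < i → i < p ^ s → v.valuation K' (g.coeff i) < 1)
    (hconst : v.valuation K' (g.coeff 0) ≤ 1)
    {L : Type w} [Field L] [NumberField L] [Algebra K L] (m : ℕ) (hm : 0 < m)
    (n : ℕ) (I : Ideal (MvPolynomial (Fin n) L)) (hI : IsNonverticalCurve I) :
    ∃ B : ℝ, ∀ k : ℕ, ∀ V ∈ hyp (f.map (algebraMap K L)) m n k, ¬ points I ⊆ V →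
      ∀ P ∈ points I ∩ V, ∑ i, absLogHeight₁ (P i) ≤ B := by
  have hDB : DB.{w, u} f := DB.wild hp hs f g a b ha hg v hv hdeg hlead hmid hconst hcrit
  have h2 : 2 ≤ (f.map (algebraMap K L)).natDegree := by
    rw [natDegree_map, hdeg]
    calc 2 ≤ p := hp.two_le
      _ = p ^ 1 := (pow_one p).symm
      _ ≤ p ^ s := Nat.pow_le_pow_right hp.pos hs
  exact main (f.map (algebraMap K L)) h2 (DB_map hDB) m hm n I hI

end Pool.Agent.Results.MP_ee0971_nt.PurelyInseparable
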